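import Pool.Agent.X246.CMI.PolyT

/-!
# Constrained matrix invertibility over the reals is `∃ℝ`-complete

An input consists of two `n × n` zero patterns; the question is whether there are real matrices
`A`, `B` which vanish where the patterns prescribe it and satisfy `A B = 1`
(`Pool.Agent.X246.CMI.CMInv`).
-/

set_option autoImplicit false

namespace Pool.Agent.Results.MP_49d20d_lc.ExistsRComplete

open Pool.Agent.NPC Pool.Agent.X246.CMI

/-- Constrained matrix invertibility over `ℝ` is `∃ℝ`-complete under polynomial-time many-one
reductions. -/
theorem result : ER.ERComplete (lang CMInv) := ⟨X246CMI.mem, X246CMI.hard⟩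

end Pool.Agent.Results.MP_49d20d_lc.ExistsRComplete
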